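import Pool.Agent.Helper80K9.SB.Ear

/-!
# Adding open ears, and the resulting sparse spanning subgraph
-/

set_option autoImplicit false

open Relation

namespace Pool.Agent.Helper80K9.SB

variable {V : Type*}

/-- consecutive pairs -/
def pairs : List V → List (V × V)
  | [] => []
  | [_] => []
  | a :: b :: l => (a, b) :: pairs (b :: l)

theorem pairs_length (l : List V) : ∀ a : V, (pairs (a :: l)).length = l.length := by
  induction l with
  | nil => intro a; rfl
  | cons b l ih => intro a; simp [pairs, ih b]

theorem isChain_iff_pairs (R : V → V → Prop) (l : List V) :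
    ∀ a : V, List.IsChain R (a :: l) ↔ ∀ p ∈ pairs (a :: l), R p.1 p.2 := by
  induction l with
  | nil => intro a; simp [pairs]
  | cons b l ih =>
    intro a
    rw [List.isChain_cons_cons, ih b]
    simp [pairs]

theorem pairs_mem (l : List V) : ∀ a : V, ∀ p ∈ pairs (a :: l), p.1 ∈ a :: l ∧ p.2 ∈ a :: l := by
  induction l with
  | nil => intro a p hp; simp [pairs] at hp
  | cons b l ih =>
    intro a p hp
    simp only [pairs, List.mem_cons] at hp
    rcases hp with rfl | hp
    · simp
    · have := ih b p (by simpa using hp)
      exact ⟨List.mem_cons_of_mem _ this.1, List.mem_cons_of_mem _ this.2⟩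

theorem chain_from {R : V → V → Prop} (l : List V) :
    ∀ a : V, List.IsChain R (a :: l) → ∀ w ∈ a :: l, ReflTransGen R a w := by
  induction l with
  | nil => intro a _ w hw; simp at hw; rw [hw]
  | cons b l ih =>
    intro a h w hw
    rw [List.isChain_cons_cons] at h
    rcases List.mem_cons.1 hw with rfl | hw
    · exact ReflTransGen.refl
    · exact ReflTransGen.head h.1 (ih b h.2 w hw)

theorem chain_to {R : V → V → Prop} (b : V) (l : List V) :
    List.IsChain R (l ++ [b]) → ∀ w ∈ l ++ [b], ReflTransGen R w b := by
  induction l with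
  | nil => intro _ w hw; simp at hw; rw [hw]
  | cons a l ih =>
    intro h w hw
    have hsub : List.IsChain R (l ++ [b]) := by
      have : List.IsChain R ([a] ++ (l ++ [b])) := by simpa using h
      exact this.right_of_append
    rcases List.mem_cons.1 (by simpa using hw : w ∈ a :: (l ++ [b])) with rfl | hw'
    · exact chain_from (l ++ [b]) w (by simpa using h) b (by simp)
    · exact ih hsub w hw'

variable [DecidableEq V]

theorem chain_av {F : Finset (V × V)} {x : V} (l : List V) (h : List.IsChain (Ar F) l)
    (hx : ∀ y ∈ l, y ≠ x) : List.IsChain (Av F x) l := by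
  induction l with
  | nil => simp
  | cons a l ih =>
    cases l with
    | nil => simp
    | cons b l =>
      rw [List.isChain_cons_cons] at h ⊢
      exact ⟨⟨Or.inl h.1, hx a (by simp), hx b (by simp)⟩,
        ih h.2 (fun y hy => hx y (List.mem_cons_of_mem _ hy))⟩

/-- The structure carried along the ear decomposition. -/
structure Sbc (S : Finset V) (F : Finset (V × V)) : Prop where
  sub : ∀ p ∈ F, p.1 ∈ S ∧ p.2 ∈ S
  strong : ∀ p ∈ S, ∀ q ∈ S, ReflTransGen (Ar F) p q
  av : ∀ x, ∀ p ∈ S, ∀ q ∈ S, p ≠ x → q ≠ x → ReflTransGen (Av F x) p q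

/-- the arcs of an ear added -/
def addEar (F : Finset (V × V)) (u v : V) (l : List V) : Finset (V × V) :=
  F ∪ (pairs (u :: (l ++ [v]))).toFinset

theorem subset_addEar (F : Finset (V × V)) (u v : V) (l : List V) : F ⊆ addEar F u v l :=
  Finset.subset_union_left

theorem addEar_chain (F : Finset (V × V)) (u v : V) (l : List V) :
    List.IsChain (Ar (addEar F u v l)) (u :: (l ++ [v])) := by
  rw [isChain_iff_pairs]
  intro p hp
  exact Finset.mem_union_right _ (List.mem_toFinset.2 hp)

theorem addEar_subset {E F : Finset (V × V)} {u v : V} {l : List V} (hF : F ⊆ E)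
    (hc : List.IsChain (Ar E) (u :: (l ++ [v]))) : addEar F u v l ⊆ E := by
  refine Finset.union_subset hF ?_
  intro p hp
  exact (isChain_iff_pairs _ _ _).1 hc p (List.mem_toFinset.1 hp)

theorem addEar_card (F : Finset (V × V)) (u v : V) (l : List V) :
    (addEar F u v l).card ≤ F.card + (l.length + 1) := by
  refine (Finset.card_union_le _ _).trans ?_
  refine Nat.add_le_add_left ?_ _
  refine (List.toFinset_card_le _).trans ?_
  rw [pairs_length]
  simp

theorem ar_mono {F F' : Finset (V × V)} (h : F ⊆ F') {p q : V} (hr : ReflTransGen (Ar F) p q) :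
    ReflTransGen (Ar F') p q := by
  induction hr with
  | refl => exact ReflTransGen.refl
  | tail _ h2 ih => exact ih.tail (h h2)

theorem av_mono {F F' : Finset (V × V)} (h : F ⊆ F') {x p q : V}
    (hr : ReflTransGen (Av F x) p q) : ReflTransGen (Av F' x) p q := by
  induction hr with
  | refl => exact ReflTransGen.refl
  | tail _ h2 ih => exact ih.tail ⟨h2.1.imp (fun k => h k) (fun k => h k), h2.2⟩

/-- Adding an open ear. -/
theorem Sbc.add {S : Finset V} {F : Finset (V × V)}
    (hsub : ∀ p ∈ F, p.1 ∈ S ∧ p.2 ∈ S)
    (hav : ∀ x, ∀ p ∈ S, ∀ q ∈ S, p ≠ x → q ≠ x → ReflTransGen (Av F x) p q)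
    {u v : V} {l : List V} (hu : u ∈ S) (hv : v ∈ S) (huv : u ≠ v) (hnd : l.Nodup)
    (hout : ∀ w ∈ l, w ∉ S)
    (hst : ∀ p ∈ S, ∀ q ∈ S, ReflTransGen (Ar (addEar F u v l)) p q) :
    Sbc (S ∪ l.toFinset) (addEar F u v l) := by
  have hch := addEar_chain F u v l
  have hchv : List.IsChain (Ar (addEar F u v l)) (l ++ [v]) := by
    have : List.IsChain (Ar (addEar F u v l)) ([u] ++ (l ++ [v])) := by simpa using hch
    exact this.right_of_append
  refine ⟨?_, ?_, ?_⟩
  · intro p hp
    have hmem : ∀ w ∈ u :: (l ++ [v]), w ∈ S ∪ l.toFinset := by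
      intro w hw
      simp only [List.mem_cons, List.mem_append, List.not_mem_nil, or_false] at hw
      rcases hw with rfl | hw | rfl
      · exact Finset.mem_union_left _ hu
      · exact Finset.mem_union_right _ (List.mem_toFinset.2 hw)
      · exact Finset.mem_union_left _ hv
    rcases Finset.mem_union.1 hp with hp | hp
    · exact ⟨Finset.mem_union_left _ (hsub p hp).1, Finset.mem_union_left _ (hsub p hp).2⟩
    · have := pairs_mem _ _ p (List.mem_toFinset.1 hp)
      exact ⟨hmem _ this.1, hmem _ this.2⟩
  · have hto : ∀ p ∈ S ∪ l.toFinset, ReflTransGen (Ar (addEar F u v l)) p u := by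
      intro p hp
      rcases Finset.mem_union.1 hp with hp | hp
      · exact hst p hp u hu
      · have h1 := chain_to v l hchv p (by simp [List.mem_toFinset.1 hp])
        exact h1.trans (hst v hv u hu)
    have hfrom : ∀ p ∈ S ∪ l.toFinset, ReflTransGen (Ar (addEar F u v l)) u p := by
      intro p hp
      rcases Finset.mem_union.1 hp with hp | hp
      · exact hst u hu p hp
      · exact chain_from _ u hch p (by simp [List.mem_toFinset.1 hp])
    intro p hp q hq
    exact (hto p hp).trans (hfrom q hq)
  · intro x
    -- every vertex is joined to a vertex of `S`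
    have hjoin : ∀ p ∈ S ∪ l.toFinset, p ≠ x →
        ∃ s ∈ S, s ≠ x ∧ ReflTransGen (Av (addEar F u v l) x) p s := by
      intro p hp hpx
      rcases Finset.mem_union.1 hp with hp | hp
      · exact ⟨p, hp, hpx, ReflTransGen.refl⟩
      · have hp' := List.mem_toFinset.1 hp
        obtain ⟨l1, l2, hl⟩ := List.append_of_mem hp'
        have hnd2 : (u :: (l ++ [v])).Nodup := by
          rw [List.nodup_cons]
          refine ⟨?_, ?_⟩
          · simp only [List.mem_append, List.mem_singleton, not_or]
            exact ⟨fun h => hout u h hu, huv⟩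
          · rw [List.nodup_append]
            refine ⟨hnd, by simp, ?_⟩
            intro a ha b hb
            simp only [List.mem_singleton] at hb
            rintro rfl
            exact hout a ha (hb ▸ hv)
        have hsplit : u :: (l ++ [v]) = (u :: l1) ++ (p :: (l2 ++ [v])) := by
          rw [hl]; simp
        rw [hsplit] at hnd2 hch
        have hdisj := (List.nodup_append.1 hnd2).2.2
        by_cases hx1 : x ∈ u :: l1
        · -- use the end towards `v`
          have hx2 : ∀ y ∈ p :: (l2 ++ [v]), y ≠ x := by
            intro y hy hyx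
            exact hdisj x hx1 y hy hyx.symm
          have h1 : List.IsChain (Ar (addEar F u v l)) (p :: (l2 ++ [v])) := hch.right_of_append
          have h2 := chain_av _ h1 hx2
          exact ⟨v, hv, hx2 v (by simp), chain_from _ p h2 v (by simp)⟩
        · have hx2 : ∀ y ∈ (u :: l1) ++ [p], y ≠ x := by
            intro y hy hyx
            rcases List.mem_append.1 hy with hy | hy
            · exact hx1 (hyx ▸ hy)
            · simp only [List.mem_singleton] at hy
              exact hpx (hy ▸ hyx)
          have h1 : List.IsChain (Ar (addEar F u v l)) ((u :: l1) ++ [p]) := by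
            have h3 : (u :: l1) ++ (p :: (l2 ++ [v])) = ((u :: l1) ++ [p]) ++ (l2 ++ [v]) := by
              simp
            rw [h3] at hch
            exact hch.left_of_append
          have h2 := chain_av _ h1 hx2
          refine ⟨u, hu, hx2 u (by simp), rtg_av_symm ?_⟩
          exact chain_from (l1 ++ [p]) u (by simpa using h2) p (by simp)
    intro p hp q hq hpx hqx
    obtain ⟨s, hs, hsx, hps⟩ := hjoin p hp hpx
    obtain ⟨t, ht, htx, hqt⟩ := hjoin q hq hqx
    exact (hps.trans (av_mono (subset_addEar F u v l) (hav x s hs t ht hsx htx))).trans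
      (rtg_av_symm hqt)

theorem card_union_list {S : Finset V} {l : List V} (hnd : l.Nodup) (hout : ∀ w ∈ l, w ∉ S) :
    (S ∪ l.toFinset).card = S.card + l.length := by
  rw [Finset.card_union_of_disjoint, List.toFinset_card_of_nodup hnd]
  rw [Finset.disjoint_left]
  intro w hw hw'
  exact hout w (List.mem_toFinset.1 hw') hw

variable [Fintype V]

/-- the base: a directed cycle of length at least three -/
theorem exists_base {E : Finset (V × V)} (hsc : ∀ u v, ReflTransGen (Ar E) u v)
    (hna : ∀ x u v : V, u ≠ x → v ≠ x → ReflTransGen (Av E x) u v)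
    (hn : 3 ≤ Fintype.card V) :
    ∃ (S : Finset V) (F : Finset (V × V)), F ⊆ E ∧ Sbc S F ∧ F.card ≤ S.card ∧ 3 ≤ S.card := by
  -- closing an ear with an arc
  have close : ∀ (u v : V) (l : List V), u ≠ v → (v, u) ∈ E → l ≠ [] → l.Nodup →
      (∀ w ∈ l, w ∉ ({u, v} : Finset V)) → List.IsChain (Ar E) (u :: (l ++ [v])) →
      ∃ (S : Finset V) (F : Finset (V × V)), F ⊆ E ∧ Sbc S F ∧ F.card ≤ S.card ∧ 3 ≤ S.card := by
    intro u v l huv hvu hl hnd hout hch
    have hcard := card_union_list (S := ({u, v} : Finset V)) hnd hout
    have h2 : ({u, v} : Finset V).card = 2 := Finset.card_pair huv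
    have hl1 : 1 ≤ l.length := List.length_pos_iff.2 hl
    have hsubF : ({(v, u)} : Finset (V × V)) ⊆ addEar {(v, u)} u v l := subset_addEar _ _ _ _
    have hvu' : ReflTransGen (Ar (addEar {(v, u)} u v l)) v u :=
      ReflTransGen.single (hsubF (Finset.mem_singleton_self _))
    have huv' : ReflTransGen (Ar (addEar {(v, u)} u v l)) u v :=
      chain_from _ u (addEar_chain _ u v l) v (by simp)
    refine ⟨{u, v} ∪ l.toFinset, addEar {(v, u)} u v l,
      addEar_subset (Finset.singleton_subset_iff.2 hvu) hch, ?_, ?_, ?_⟩
    · refine Sbc.add ?_ ?_ (by simp) (by simp) huv hnd hout ?_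
      · intro p hp
        rw [Finset.mem_singleton.1 hp]
        simp
      · intro x p hp q hq hpx hqx
        simp only [Finset.mem_insert, Finset.mem_singleton] at hp hq
        rcases hp with rfl | rfl <;> rcases hq with rfl | rfl
        · exact ReflTransGen.refl
        · exact ReflTransGen.single ⟨Or.inr (Finset.mem_singleton_self _), hpx, hqx⟩
        · exact ReflTransGen.single ⟨Or.inl (Finset.mem_singleton_self _), hpx, hqx⟩
        · exact ReflTransGen.refl
      · intro p hp q hq
        simp only [Finset.mem_insert, Finset.mem_singleton] at hp hq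
        rcases hp with rfl | rfl <;> rcases hq with rfl | rfl
        · exact ReflTransGen.refl
        · exact huv'
        · exact hvu'
        · exact ReflTransGen.refl
    · have := addEar_card {(v, u)} u v l
      rw [hcard, h2]
      rw [Finset.card_singleton] at this
      omega
    · rw [hcard, h2]; omega
  -- an arc
  obtain ⟨a, b, hab, habE⟩ : ∃ a b : V, a ≠ b ∧ (a, b) ∈ E := by
    obtain ⟨s, t, hst⟩ := Fintype.exists_pair_of_one_lt_card (α := V) (by omega)
    by_contra hcon
    push Not at hcon
    have : ∀ w, ReflTransGen (Ar E) s w → w = s := by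
      intro w hw
      induction hw with
      | refl => rfl
      | @tail y z _ hyz ih =>
        subst ih
        by_contra hne
        exact hcon y z (fun h => hne h.symm) hyz
    exact hst (this t (hsc s t)).symm
  obtain ⟨l, hl1, hl2, hl3⟩ := exists_nodup_chain (hsc b a)
  have hlne : l ≠ [] := by
    rintro rfl
    simp at hl3
    exact hab hl3.symm
  obtain ⟨l', c, rfl⟩ : ∃ l' c, l = l' ++ [c] :=
    ⟨l.dropLast, l.getLast hlne, (List.dropLast_append_getLast hlne).symm⟩
  have hca : c = a := by
    have : (b :: (l' ++ [c])) = (b :: l') ++ [c] := by simp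
    rw [this, List.getLast?_append] at hl3
    simpa using hl3
  subst hca
  by_cases hl' : l' = []
  · subst hl'
    have hba : (b, c) ∈ E := by
      simp only [List.nil_append, List.isChain_cons_cons] at hl1
      exact hl1.1
    have hS2 : ({c, b} : Finset V).card = 2 := Finset.card_pair hab
    obtain ⟨w0, hw0⟩ : ∃ w0, w0 ∉ ({c, b} : Finset V) := by
      by_contra hcon
      push Not at hcon
      have : (Finset.univ : Finset V) ⊆ {c, b} := fun w _ => hcon w
      have := Finset.card_le_card this
      rw [Finset.card_univ, hS2] at this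
      omega
    obtain ⟨u, v, l, hu, hv, huv, hl, hnd, hout, hch⟩ := exists_ear hsc hna (by rw [hS2]) hw0
    have hvu : (v, u) ∈ E := by
      simp only [Finset.mem_insert, Finset.mem_singleton] at hu hv
      rcases hu with rfl | rfl <;> rcases hv with rfl | rfl
      · exact absurd rfl huv
      · exact hba
      · exact habE
      · exact absurd rfl huv
    refine close u v l huv hvu hl hnd ?_ hch
    intro w hw hmem
    apply hout w hw
    simp only [Finset.mem_insert, Finset.mem_singleton] at hmem
    rcases hmem with rfl | rfl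
    · exact hu
    · exact hv
  · refine close b c l' (fun h => hab h.symm) habE hl' ?_ ?_ hl1
    · exact (List.nodup_append.1 (List.nodup_cons.1 hl2).2).1
    · intro w hw hmem
      simp only [Finset.mem_insert, Finset.mem_singleton] at hmem
      rw [List.nodup_cons, List.nodup_append] at hl2
      rcases hmem with rfl | rfl
      · exact hl2.1 (by simp [hw])
      · exact hl2.2.2.2 w hw w (by simp) rfl

theorem exists_spanning {E : Finset (V × V)} (hsc : ∀ u v, ReflTransGen (Ar E) u v)
    (hna : ∀ x u v : V, u ≠ x → v ≠ x → ReflTransGen (Av E x) u v)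
    (hn : 3 ≤ Fintype.card V) :
    ∃ F : Finset (V × V), F ⊆ E ∧ Sbc Finset.univ F ∧ F.card + 3 ≤ 2 * Fintype.card V := by
  have step : ∀ (k : ℕ) (S : Finset V) (F : Finset (V × V)), Fintype.card V - S.card = k →
      F ⊆ E → Sbc S F → F.card + 3 ≤ 2 * S.card → 3 ≤ S.card →
      ∃ F : Finset (V × V), F ⊆ E ∧ Sbc Finset.univ F ∧ F.card + 3 ≤ 2 * Fintype.card V := by
    intro k
    induction k using Nat.strong_induction_on with
    | _ k ih =>
      intro S F hk hFE hSB hcard hS
      by_cases hSu : S = Finset.univ
      · subst hSu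
        exact ⟨F, hFE, hSB, by rwa [Finset.card_univ] at hcard⟩
      · obtain ⟨w0, hw0⟩ : ∃ w0, w0 ∉ S := by
          by_contra hcon
          push Not at hcon
          exact hSu (Finset.eq_univ_iff_forall.2 hcon)
        obtain ⟨u, v, l, hu, hv, huv, hl, hnd, hout, hch⟩ :=
          exists_ear hsc hna (by omega : 2 ≤ S.card) hw0
        have hl1 : 1 ≤ l.length := List.length_pos_iff.2 hl
        have hc := card_union_list hnd hout
        have hSB' : Sbc (S ∪ l.toFinset) (addEar F u v l) :=
          Sbc.add hSB.sub hSB.av hu hv huv hnd hout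
            (fun p hp q hq => ar_mono (subset_addEar F u v l) (hSB.strong p hp q hq))
        have hle : (S ∪ l.toFinset).card ≤ Fintype.card V := Finset.card_le_univ _
        have hc2 := addEar_card F u v l
        exact ih (Fintype.card V - (S ∪ l.toFinset).card) (by omega) (S ∪ l.toFinset)
          (addEar F u v l) rfl (addEar_subset hFE hch) hSB' (by omega) (by omega)
  obtain ⟨S, F, hFE, hSB, h1, h2⟩ := exists_base hsc hna hn
  exact step _ S F rfl hFE hSB (by omega) h2

end Pool.Agent.Helper80K9.SB
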