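import Mathlib

/-!
# Open ears in strongly connected digraphs without articulation points
-/

set_option autoImplicit false

open Relation

namespace Pool.Agent.Helper80K9.SB

variable {V : Type*}

/-- arcs as a relation -/
def Ar (E : Finset (V × V)) (a b : V) : Prop := (a, b) ∈ E

/-- undirected adjacency avoiding `x` -/
def Av (E : Finset (V × V)) (x a b : V) : Prop := ((a, b) ∈ E ∨ (b, a) ∈ E) ∧ a ≠ x ∧ b ≠ x

theorem Av.symm' {E : Finset (V × V)} {x a b : V} (h : Av E x a b) : Av E x b a :=
  ⟨h.1.symm, h.2.2, h.2.1⟩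

theorem rtg_av_symm {E : Finset (V × V)} {x a b : V} (h : ReflTransGen (Av E x) a b) :
    ReflTransGen (Av E x) b a := by
  induction h with
  | refl => exact ReflTransGen.refl
  | tail _ h ih => exact ReflTransGen.head h.symm' ih

/-- a chain without repetitions -/
theorem exists_nodup_chain {R : V → V → Prop} {a b : V} (h : ReflTransGen R a b) :
    ∃ l : List V, List.IsChain R (a :: l) ∧ (a :: l).Nodup ∧ (a :: l).getLast? = some b := by
  induction h using ReflTransGen.head_induction_on with
  | refl => exact ⟨[], by simp, by simp, by simp⟩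
  | @head a c hac _ ih =>
    obtain ⟨l, h1, h2, h3⟩ := ih
    by_cases ha : a ∈ c :: l
    · obtain ⟨s, t, hst⟩ := List.append_of_mem ha
      refine ⟨t, ?_, ?_, ?_⟩
      · rw [hst] at h1
        exact h1.right_of_append
      · rw [hst] at h2
        exact (List.nodup_append.1 h2).2.1
      · rw [hst] at h3
        rw [List.getLast?_append] at h3
        simpa using h3
    · refine ⟨c :: l, List.IsChain.cons_cons hac h1, List.nodup_cons.2 ⟨ha, h2⟩, ?_⟩
      rw [List.getLast?_cons_cons]
      exact h3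

variable [Fintype V] [DecidableEq V]

/-- The ear lemma. -/
theorem exists_ear {E : Finset (V × V)} (hsc : ∀ u v, ReflTransGen (Ar E) u v)
    (hna : ∀ x u v : V, u ≠ x → v ≠ x → ReflTransGen (Av E x) u v)
    {S : Finset V} (hS : 2 ≤ S.card) {w0 : V} (hw0 : w0 ∉ S) :
    ∃ (u v : V) (l : List V), u ∈ S ∧ v ∈ S ∧ u ≠ v ∧ l ≠ [] ∧ l.Nodup ∧ (∀ w ∈ l, w ∉ S) ∧
      List.IsChain (Ar E) (u :: (l ++ [v])) := by
  -- steps outside `S`
  let Ro : V → V → Prop := fun a b => (a, b) ∈ E ∧ a ∉ S ∧ b ∉ S
  let Ent : V → V → Prop := fun a w => a ∈ S ∧ ∃ a', a' ∉ S ∧ (a, a') ∈ E ∧ ReflTransGen Ro a' w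
  let Ex : V → V → Prop := fun w b => b ∈ S ∧ ∃ b', b' ∉ S ∧ (b', b) ∈ E ∧ ReflTransGen Ro w b'
  obtain ⟨s0, hs0⟩ : S.Nonempty := Finset.card_pos.1 (by omega)
  have hent : ∀ w, w ∉ S → ∃ a, Ent a w := by
    intro w
    have h := hsc s0 w
    induction h with
    | refl => intro h; exact absurd hs0 h
    | @tail y w _ hyw ih =>
      intro hw
      by_cases hy : y ∈ S
      · exact ⟨y, hy, w, hw, hyw, ReflTransGen.refl⟩
      · obtain ⟨a, ha, a', ha', haa, hr⟩ := ih hy
        exact ⟨a, ha, a', ha', haa, hr.tail ⟨hyw, hy, hw⟩⟩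
  have hex : ∀ w, w ∉ S → ∃ b, Ex w b := by
    intro w
    have h := hsc w s0
    induction h using ReflTransGen.head_induction_on with
    | refl => intro h; exact absurd hs0 h
    | @head w y hwy _ ih =>
      intro hw
      by_cases hy : y ∈ S
      · exact ⟨y, hy, w, hw, hwy, ReflTransGen.refl⟩
      · obtain ⟨b, hb, b', hb', hbb, hr⟩ := ih hy
        exact ⟨b, hb, b', hb', hbb, ReflTransGen.head ⟨hwy, hw, hy⟩ hr⟩
  by_contra hno
  -- no ear: entries and exits coincide
  have key : ∀ w a b, Ent a w → Ex w b → a = b := by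
    rintro w a b ⟨ha, a', ha', haa, hr1⟩ ⟨hb, b', hb', hbb, hr2⟩
    by_contra hab
    apply hno
    obtain ⟨l, h1, h2, h3⟩ := exists_nodup_chain (hr1.trans hr2)
    refine ⟨a, b, a' :: l, ha, hb, hab, by simp, h2, ?_, ?_⟩
    · have h4 : ∀ (l : List V) (c : V), c ∉ S → List.IsChain Ro (c :: l) → ∀ w ∈ c :: l, w ∉ S := by
        intro l
        induction l with
        | nil => intro c hc _ w hw; simp at hw; rwa [hw]
        | cons d l ih =>
          intro c hc hch w hw
          rw [List.isChain_cons_cons] at hch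
          rcases List.mem_cons.1 hw with rfl | hw
          · exact hc
          · exact ih d hch.1.2.2 hch.2 w hw
      exact h4 l a' ha' h1
    · have h5 : List.IsChain (Ar E) (a' :: l) := h1.imp fun _ _ h => h.1
      have h6 : List.IsChain (Ar E) ((a' :: l) ++ [b]) := by
        rw [List.isChain_append]
        refine ⟨h5, by simp, ?_⟩
        intro x hx y hy
        rw [h3] at hx
        simp only [Option.mem_def, Option.some.injEq, List.head?_cons] at hx hy
        rw [← hx, ← hy]
        exact hbb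
      exact List.IsChain.cons_cons haa h6
  obtain ⟨c0, hc0⟩ := hent w0 hw0
  have hK : ∀ w, ReflTransGen (Av E c0) w0 w → w ∉ S ∧ Ent c0 w := by
    intro w h
    induction h with
    | refl => exact ⟨hw0, hc0⟩
    | @tail w w' _ hww ih =>
      obtain ⟨hw, hwe⟩ := ih
      obtain ⟨hadj, hwc, hwc'⟩ := hww
      rcases hadj with h | h
      · have hw' : w' ∉ S := by
          intro hw'
          exact hwc' (key w c0 w' hwe ⟨hw', w, hw, h, ReflTransGen.refl⟩).symm
        obtain ⟨h1, a', ha', haa, hr⟩ := hwe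
        exact ⟨hw', h1, a', ha', haa, hr.tail ⟨h, hw, hw'⟩⟩
      · obtain ⟨b, hb⟩ := hex w hw
        have hcb := key w c0 b hwe hb
        have hw' : w' ∉ S := by
          intro hw'
          have h2 := key w w' b ⟨hw', w, hw, h, ReflTransGen.refl⟩ hb
          exact hwc' (h2.trans hcb.symm)
        obtain ⟨a, ha⟩ := hent w' hw'
        have h3 : Ent a w := by
          obtain ⟨h1, a', ha', haa, hr⟩ := ha
          exact ⟨h1, a', ha', haa, hr.tail ⟨h, hw', hw⟩⟩
        have h4 : a = c0 := (key w a b h3 hb).trans hcb.symm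
        exact ⟨hw', h4 ▸ ha⟩
  obtain ⟨s1, hs1, hne⟩ : ∃ s1 ∈ S, s1 ≠ c0 := by
    by_contra hcon
    push Not at hcon
    have : S ⊆ {c0} := fun s hs => Finset.mem_singleton.2 (hcon s hs)
    have := Finset.card_le_card this
    rw [Finset.card_singleton] at this
    omega
  have hwc : w0 ≠ c0 := fun h => hw0 (h ▸ hc0.1)
  exact (hK s1 (hna c0 w0 s1 hwc hne)).1 hs1

end Pool.Agent.Helper80K9.SB
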